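import Pool.Agent.Q38.HC.Omega

set_option autoImplicit false

/-!
# Pairs one of whose members `a`, `b`, `a + b` has many prime factors
-/

namespace Pool.Agent.Q38.HC

open Finset

/-- `(1 + log X) ^ ⌈√(log X)⌉ = X ^ o(1)` -/
theorem growth (η : ℝ) (hη : 0 < η) : ∃ C : ℝ, 0 < C ∧ ∀ X : ℝ, 1 ≤ X →
    (1 + Real.log X) ^ ⌈Real.sqrt (Real.log X)⌉₊ ≤ C * X ^ η := by
  refine ⟨Real.exp (η + 8 * (8 / η) ^ 3), Real.exp_pos _, fun X hX => ?_⟩
  have hX0 : 0 < X := by linarith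
  set L := Real.log X with hL
  have hL0 : 0 ≤ L := Real.log_nonneg hX
  set t : ℝ := 1 + L with ht
  have ht1 : 1 ≤ t := by linarith
  have ht0 : 0 < t := by linarith
  have hlogt : 0 ≤ Real.log t := Real.log_nonneg ht1
  have h1 : ((⌈Real.sqrt L⌉₊ : ℕ) : ℝ) ≤ Real.sqrt L + 1 := (Nat.ceil_lt_add_one (Real.sqrt_nonneg _)).le
  have h2 : Real.sqrt L ≤ Real.sqrt t := Real.sqrt_le_sqrt (by linarith)
  have h3 : 1 ≤ Real.sqrt t := by rw [Real.one_le_sqrt]; exact ht1
  -- fourth root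
  set u : ℝ := Real.sqrt (Real.sqrt t) with hu
  have hu0 : 0 ≤ u := Real.sqrt_nonneg _
  have hu2 : u ^ 2 = Real.sqrt t := Real.sq_sqrt (Real.sqrt_nonneg _)
  have hu4 : u ^ 4 = t := by
    have : u ^ 4 = (u ^ 2) ^ 2 := by ring
    rw [this, hu2, Real.sq_sqrt ht0.le]
  have hu1 : 1 ≤ u := by rw [hu, Real.one_le_sqrt]; exact h3
  have hlog : Real.log t ≤ 4 * u := by
    have : Real.log t = 4 * Real.log u := by
      rw [← hu4, Real.log_pow]; push_cast; ring
    rw [this]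
    have := Real.log_le_sub_one_of_pos (show 0 < u by linarith)
    linarith
  have h4 : ((⌈Real.sqrt L⌉₊ : ℕ) : ℝ) * Real.log t ≤ 8 * u ^ 3 := by
    calc ((⌈Real.sqrt L⌉₊ : ℕ) : ℝ) * Real.log t ≤ (2 * u ^ 2) * (4 * u) := by
          refine mul_le_mul ?_ hlog hlogt (by positivity)
          rw [hu2]; linarith
      _ = 8 * u ^ 3 := by ring
  have h5 : 8 * u ^ 3 ≤ η * t + 8 * (8 / η) ^ 3 := by
    rcases le_total u (8 / η) with h | h
    · have : u ^ 3 ≤ (8 / η) ^ 3 := pow_le_pow_left₀ hu0 h 3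
      have h6 : 0 ≤ η * t := by positivity
      linarith
    · have h6 : 8 ≤ η * u := by
        rw [div_le_iff₀ hη] at h
        linarith
      have h7 : 8 * u ^ 3 ≤ η * t := by
        rw [← hu4]
        calc 8 * u ^ 3 ≤ (η * u) * u ^ 3 := by gcongr
          _ = η * u ^ 4 := by ring
      have h8 : 0 ≤ 8 * (8 / η) ^ 3 := by positivity
      linarith
  have h6 : t ^ ⌈Real.sqrt L⌉₊ = Real.exp (((⌈Real.sqrt L⌉₊ : ℕ) : ℝ) * Real.log t) := by
    rw [Real.exp_nat_mul, Real.exp_log ht0]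
  rw [h6]
  have h7 : X ^ η = Real.exp (η * L) := by
    rw [Real.rpow_def_of_pos hX0, hL]
    ring_nf
  rw [h7, ← Real.exp_add]
  apply Real.exp_le_exp.mpr
  have : η * t = η + η * L := by rw [ht]; ring
  linarith

/-- the pairs `a ≤ b` with `a + b ≤ X ^ (1/3 + η)` such that `ω (ab(a+b))` is large -/
def many (δ η X : ℝ) : Set (ℕ × ℕ) :=
  {p | 0 < p.1 ∧ 0 < p.2 ∧ ((p.1 + p.2 : ℕ) : ℝ) ≤ X ^ (1 / 3 + η) ∧
    X ^ (δ / 2) < Real.log X ^ om (p.1 * p.2 * (p.1 + p.2))}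

theorem om_mul_le (m n : ℕ) (hm : m ≠ 0) (hn : n ≠ 0) : om (m * n) ≤ om m + om n := by
  unfold om
  rw [Nat.primeFactors_mul hm hn]
  exact Finset.card_union_le _ _

theorem many_bound (δ η : ℝ) (hδ : 0 < δ) (hη : 0 < η) (hη1 : η ≤ 2 / 3) :
    ∃ C : ℝ, 0 < C ∧ ∀ X : ℝ, 1 ≤ X →
      (many δ η X).Finite ∧ ((many δ η X).ncard : ℝ) ≤ C * X ^ (2 / 3 + 3 * η - δ / 12) := by
  obtain ⟨C, hC, hgr⟩ := growth η hη
  refine ⟨3 * C, by positivity, fun X hX => ?_⟩
  have hX0 : 0 < X := by linarith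
  set L := Real.log X with hL
  have hL0 : 0 ≤ L := Real.log_nonneg hX
  set Y : ℕ := ⌊X ^ (1 / 3 + η)⌋₊ with hY
  set z : ℕ := ⌈Real.sqrt L⌉₊ with hz
  set S : Finset ℕ := (Icc 1 Y).filter (fun n => X ^ (δ / 12) ≤ (z : ℝ) ^ om n) with hS
  have hYX : (Y : ℝ) ≤ X ^ (1 / 3 + η) := Nat.floor_le (by positivity)
  have hsub : many δ η X ⊆ (((S ×ˢ Icc 1 Y) ∪ (Icc 1 Y ×ˢ S)) ∪
      (S ×ˢ Icc 1 Y).image (fun q => (q.2, q.1 - q.2)) : Finset (ℕ × ℕ)) := by
    rintro ⟨a, b⟩ ⟨ha, hb, hc, hlarge⟩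
    simp only at ha hb hc hlarge
    -- log X > 1
    have hL1 : 1 < L := by
      by_contra hcon
      rw [not_lt] at hcon
      have h1 : L ^ om (a * b * (a + b)) ≤ 1 := pow_le_one₀ hL0 hcon
      have h2 : 1 ≤ X ^ (δ / 2) := Real.one_le_rpow hX (by positivity)
      linarith
    have hcY : a + b ≤ Y := Nat.le_floor hc
    have key : ∀ n : ℕ, X ^ (δ / 6) < L ^ om n → 1 ≤ n → n ≤ Y → n ∈ S := by
      intro n hn h1 h2
      rw [hS, Finset.mem_filter, Finset.mem_Icc]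
      refine ⟨⟨h1, h2⟩, ?_⟩
      have h3 : L ≤ (z : ℝ) ^ 2 := by
        have h4 : Real.sqrt L ≤ z := Nat.le_ceil _
        calc L = Real.sqrt L ^ 2 := (Real.sq_sqrt hL0).symm
          _ ≤ (z : ℝ) ^ 2 := pow_le_pow_left₀ (Real.sqrt_nonneg _) h4 2
      have h5 : L ^ om n ≤ ((z : ℝ) ^ om n) ^ 2 := by
        calc L ^ om n ≤ ((z : ℝ) ^ 2) ^ om n := pow_le_pow_left₀ hL0 h3 _
          _ = ((z : ℝ) ^ om n) ^ 2 := by rw [← pow_mul, ← pow_mul, mul_comm]
      have h6 : X ^ (δ / 6) = (X ^ (δ / 12)) ^ 2 := by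
        rw [← Real.rpow_natCast, ← Real.rpow_mul hX0.le]
        congr 1
        push_cast; ring
      have h7 : (X ^ (δ / 12)) ^ 2 < ((z : ℝ) ^ om n) ^ 2 := by
        rw [← h6]; exact lt_of_lt_of_le hn h5
      exact (lt_of_pow_lt_pow_left₀ 2 (by positivity) h7).le
    simp only [Finset.coe_union, Set.mem_union, Finset.mem_coe, Finset.mem_product,
      Finset.mem_image, Finset.mem_Icc, Prod.exists, Prod.mk.injEq]
    by_cases ha6 : X ^ (δ / 6) < L ^ om a
    · left; left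
      exact ⟨key a ha6 (by omega) (by omega), by omega, by omega⟩
    by_cases hb6 : X ^ (δ / 6) < L ^ om b
    · left; right
      exact ⟨⟨by omega, by omega⟩, key b hb6 (by omega) (by omega)⟩
    by_cases hc6 : X ^ (δ / 6) < L ^ om (a + b)
    · right
      exact ⟨a + b, a, ⟨key (a + b) hc6 (by omega) hcY, by omega, by omega⟩, rfl, by omega⟩
    exfalso
    rw [not_lt] at ha6 hb6 hc6
    have h1 : om (a * b * (a + b)) ≤ om a + om b + om (a + b) := by
      have h2 := om_mul_le (a * b) (a + b) (by positivity) (by omega)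
      have h3 := om_mul_le a b (by omega) (by omega)
      omega
    have h2 : L ^ om (a * b * (a + b)) ≤ L ^ (om a + om b + om (a + b)) :=
      pow_le_pow_right₀ hL1.le h1
    have h3 : L ^ (om a + om b + om (a + b)) ≤ X ^ (δ / 6) * X ^ (δ / 6) * X ^ (δ / 6) := by
      rw [pow_add, pow_add]
      gcongr
    have h4 : X ^ (δ / 6) * X ^ (δ / 6) * X ^ (δ / 6) = X ^ (δ / 2) := by
      rw [← Real.rpow_add hX0, ← Real.rpow_add hX0]
      congr 1; ring
    linarith
  refine ⟨(Finset.finite_toSet _).subset hsub, ?_⟩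
  have hcard : (many δ η X).ncard ≤ 3 * (S.card * Y) := by
    refine (Set.ncard_le_ncard hsub (Finset.finite_toSet _)).trans ?_
    rw [Set.ncard_coe_finset]
    refine (Finset.card_union_le _ _).trans ?_
    have h1 := Finset.card_union_le (S ×ˢ Icc 1 Y) (Icc 1 Y ×ˢ S)
    have h2 : ((S ×ˢ Icc 1 Y).image (fun q : ℕ × ℕ => (q.2, q.1 - q.2))).card ≤
        (S ×ˢ Icc 1 Y).card := Finset.card_image_le
    rw [Finset.card_product, Nat.card_Icc, Nat.add_sub_cancel] at h2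
    rw [Finset.card_product, Finset.card_product, Nat.card_Icc, Nat.add_sub_cancel] at h1
    have h3 : Y * S.card = S.card * Y := mul_comm _ _
    omega
  have hSc : (S.card : ℝ) ≤ Y * (1 + Real.log Y) ^ z / X ^ (δ / 12) :=
    card_le Y z _ (by positivity)
  have hlog : (1 + Real.log Y) ^ z ≤ C * X ^ η := by
    rcases Nat.eq_zero_or_pos Y with h0 | h0
    · refine le_trans ?_ (hgr X hX)
      rw [h0]
      simp only [Nat.cast_zero, Real.log_zero, add_zero]
      refine pow_le_pow_left₀ (by norm_num) (by linarith) _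
    · refine le_trans ?_ (hgr X hX)
      have hY1 : (1 : ℝ) ≤ Y := by exact_mod_cast h0
      have h1 : (Y : ℝ) ≤ X := by
        refine hYX.trans ?_
        calc X ^ (1 / 3 + η) ≤ X ^ (1 : ℝ) := Real.rpow_le_rpow_of_exponent_le hX (by linarith)
          _ = X := Real.rpow_one X
      have h2 : Real.log Y ≤ L := Real.log_le_log (by linarith) h1
      have h3 : 0 ≤ Real.log Y := Real.log_nonneg hY1
      exact pow_le_pow_left₀ (by linarith) (by linarith) _
  calc ((many δ η X).ncard : ℝ) ≤ 3 * (S.card * Y) := by exact_mod_cast hcard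
    _ ≤ 3 * ((X ^ (1 / 3 + η) * (C * X ^ η) / X ^ (δ / 12)) * X ^ (1 / 3 + η)) := by
        have h1 : (S.card : ℝ) ≤ X ^ (1 / 3 + η) * (C * X ^ η) / X ^ (δ / 12) := by
          refine hSc.trans ?_
          have h2 : (0 : ℝ) ≤ (1 + Real.log Y) ^ z := by
            refine pow_nonneg ?_ _
            have := Real.log_natCast_nonneg Y
            linarith
          gcongr
        gcongr
    _ = 3 * C * X ^ (2 / 3 + 3 * η - δ / 12) := by
        have e : X ^ (2 / 3 + 3 * η - δ / 12) =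
            X ^ (1 / 3 + η) * X ^ η * X ^ (1 / 3 + η) / X ^ (δ / 12) := by
          rw [← Real.rpow_add hX0, ← Real.rpow_add hX0, ← Real.rpow_sub hX0]
          congr 1; ring
        rw [e]
        ring

end Pool.Agent.Q38.HC
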