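import Pool.Agent.Y911.AA.Main
import Pool.Agent.Q38.HC.Count

set_option autoImplicit false

/-!
# The `H`-inequality for almost all abc triples
-/

namespace Pool.Agent.Q38.HC

open Filter Topology Pool.Agent.Results.MP_1ea25c_nt.AlmostAllTriples Pool.Agent.Y911.AA

theorem triples_mono {X Y : ℝ} (h : X ≤ Y) : triples X ⊆ triples Y :=
  fun _ hp => ⟨hp.1, hp.2.1, hp.2.2.1, hp.2.2.2.trans h⟩

theorem triples_bound : ∃ C : ℝ, 0 < C ∧ ∀ X : ℝ, 1 ≤ X →
    ((triples X).ncard : ℝ) ≤ C * X ^ ((2 : ℝ) / 3) := by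
  obtain ⟨κ, hκ, h1, -⟩ := Pool.Agent.Y911.AA.main
  have h2 : ∀ᶠ X in atTop, ((triples X).ncard : ℝ) / X ^ ((2 : ℝ) / 3) < κ + 1 :=
    h1.eventually_lt_const (by linarith)
  obtain ⟨X0, hX0⟩ := (Filter.eventually_atTop).mp h2
  set X1 := max X0 1 with hX1
  have hX1' : 1 ≤ X1 := le_max_right _ _
  refine ⟨(κ + 1) * X1 ^ ((2 : ℝ) / 3), by positivity, fun X hX => ?_⟩
  have hb : ∀ Z : ℝ, X1 ≤ Z → ((triples Z).ncard : ℝ) ≤ (κ + 1) * Z ^ ((2 : ℝ) / 3) := by
    intro Z hZ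
    have h3 := hX0 Z ((le_max_left _ _).trans hZ)
    have hZ0 : 0 < Z := by linarith
    rw [div_lt_iff₀ (by positivity)] at h3
    exact h3.le
  have hX1p : 1 ≤ X1 ^ ((2 : ℝ) / 3) := Real.one_le_rpow hX1' (by norm_num)
  have hXp : 1 ≤ X ^ ((2 : ℝ) / 3) := Real.one_le_rpow hX (by norm_num)
  rcases le_total X1 X with h | h
  · refine (hb X h).trans ?_
    have h4 : 0 ≤ (κ + 1) * X ^ ((2 : ℝ) / 3) := by positivity
    nlinarith
  · have h5 : ((triples X).ncard : ℝ) ≤ (triples X1).ncard := by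
      exact_mod_cast Set.ncard_le_ncard (triples_mono h) (triples_finite' X1)
    refine h5.trans ((hb X1 le_rfl).trans ?_)
    have h4 : 0 ≤ (κ + 1) * X1 ^ ((2 : ℝ) / 3) := by positivity
    nlinarith

/-- `H (abc)` -/
noncomputable def HH (p : ℕ × ℕ) : ℝ :=
  (rad3 p : ℝ) / Real.log (rad3 p) ^ om (p.1 * p.2 * (p.1 + p.2))

def exc (M X : ℝ) : Set (ℕ × ℕ) :=
  {p | p ∈ triples X ∧ HH p ^ M ≤ ((p.1 + p.2 : ℕ) : ℝ)}

theorem rad3_two {X : ℝ} {p : ℕ × ℕ} (hp : p ∈ triples X) : 2 ≤ rad3 p := by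
  obtain ⟨h1, h2, -, -⟩ := hp
  have hc : p.1 + p.2 ≠ 1 := by omega
  obtain ⟨q, hq, hqd⟩ := Nat.exists_prime_and_dvd hc
  have hq2 : q ∈ (p.1 * p.2 * (p.1 + p.2)).primeFactors := by
    rw [Nat.mem_primeFactors]
    refine ⟨hq, Dvd.dvd.mul_left hqd _, ?_⟩
    have : 0 < p.2 := by omega
    positivity
  have h3 : q ∣ rad3 p := Finset.dvd_prod_of_mem _ hq2
  exact hq.two_le.trans (Nat.le_of_dvd (rad3_pos p) h3)

theorem main (M : ℝ) (hM : 1 / 3 < M) : ∃ ν C : ℝ, 0 < ν ∧ 0 < C ∧ ∀ X : ℝ, 1 ≤ X →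
    ((exc M X).ncard : ℝ) ≤ C * X ^ (2 / 3 - ν) := by
  obtain ⟨κ, hκ, -, hv⟩ := Pool.Agent.Y911.AA.main
  set M1 : ℝ := (M + 1 / 3) / 2 with hM1
  have hM1a : 1 / 3 < M1 := by rw [hM1]; linarith
  have hM1b : M1 < M := by rw [hM1]; linarith
  have hM0 : 0 < M := by linarith
  set δ : ℝ := 1 - M1 / M with hδ
  have hδ0 : 0 < δ := by
    rw [hδ, sub_pos, div_lt_one hM0]; exact hM1b
  have hδ1 : δ ≤ 1 := by
    have : 0 < M1 / M := by positivity
    linarith
  set η : ℝ := δ / 72 with hη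
  have hη0 : 0 < η := by rw [hη]; positivity
  obtain ⟨ν1, C1, hν1, hC1, hv1⟩ := hv M1 hM1a
  obtain ⟨ν2, C2, hν2, hC2, hv2⟩ := hv (1 / 3 + η) (by linarith)
  obtain ⟨C3, hC3, hv3⟩ := triples_bound
  obtain ⟨C4, hC4, hv4⟩ := many_bound δ η hδ0 hη0 (by rw [hη]; linarith)
  set ν : ℝ := min (min ν1 ν2) (min (2 / 3 * η) (δ / 24)) with hν
  have hνa : ν ≤ ν1 := (min_le_left _ _).trans (min_le_left _ _)
  have hνb : ν ≤ ν2 := (min_le_left _ _).trans (min_le_right _ _)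
  have hνc : ν ≤ 2 / 3 * η := (min_le_right _ _).trans (min_le_left _ _)
  have hνd : ν ≤ δ / 24 := (min_le_right _ _).trans (min_le_right _ _)
  have hν0 : 0 < ν := by
    rw [hν]
    exact lt_min (lt_min hν1 hν2) (lt_min (by positivity) (by positivity))
  refine ⟨ν, C1 + C2 + C3 + C4, hν0, by positivity, fun X hX => ?_⟩
  have hX0 : 0 < X := by linarith
  have hXη : 1 ≤ X ^ (1 - η) := Real.one_le_rpow hX (by rw [hη]; linarith)
  have hsub : exc M X ⊆ ((viol M1 X ∪ viol (1 / 3 + η) X) ∪ triples (X ^ (1 - η))) ∪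
      many δ η X := by
    rintro p ⟨hp, hH⟩
    by_cases h1 : (rad3 p : ℝ) ^ M1 ≤ ((p.1 + p.2 : ℕ) : ℝ)
    · exact Or.inl (Or.inl (Or.inl ⟨hp, h1⟩))
    by_cases h2 : (rad3 p : ℝ) ^ (1 / 3 + η) ≤ ((p.1 + p.2 : ℕ) : ℝ)
    · exact Or.inl (Or.inl (Or.inr ⟨hp, h2⟩))
    by_cases h3 : (rad3 p : ℝ) ≤ X ^ (1 - η)
    · exact Or.inl (Or.inr ⟨hp.1, hp.2.1, hp.2.2.1, h3⟩)
    right
    rw [not_le] at h1 h2 h3
    have hR2 : (2 : ℝ) ≤ rad3 p := by exact_mod_cast rad3_two hp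
    have hR0 : (0 : ℝ) < rad3 p := by linarith
    have hRX : (rad3 p : ℝ) ≤ X := hp.2.2.2
    have hlog0 : 0 < Real.log (rad3 p) := Real.log_pos (by linarith)
    have hlogX : Real.log (rad3 p) ≤ Real.log X := Real.log_le_log hR0 hRX
    refine ⟨hp.1, by have := hp.2.1; have := hp.1; omega, ?_, ?_⟩
    · exact h2.le.trans (Real.rpow_le_rpow hR0.le hRX (by positivity))
    · have hHpos : 0 < HH p := by
        unfold HH
        positivity
      have h4 : HH p ^ M < (rad3 p : ℝ) ^ M1 := lt_of_le_of_lt hH h1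
      have h5 : HH p < (rad3 p : ℝ) ^ (M1 / M) := by
        have h6 : (HH p ^ M) ^ (1 / M) < ((rad3 p : ℝ) ^ M1) ^ (1 / M) :=
          Real.rpow_lt_rpow (by positivity) h4 (by positivity)
        rw [← Real.rpow_mul hHpos.le, ← Real.rpow_mul hR0.le, mul_one_div, mul_one_div,
          div_self hM0.ne', Real.rpow_one] at h6
        exact h6
      have h7 : (rad3 p : ℝ) ^ δ < Real.log (rad3 p) ^ om (p.1 * p.2 * (p.1 + p.2)) := by
        unfold HH at h5
        rw [div_lt_iff₀ (by positivity)] at h5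
        rw [hδ, Real.rpow_sub hR0, Real.rpow_one, div_lt_iff₀ (by positivity), mul_comm]
        exact h5
      calc X ^ (δ / 2) ≤ X ^ ((1 - η) * δ) := by
            refine Real.rpow_le_rpow_of_exponent_le hX ?_
            have : η ≤ 1 / 2 := by rw [hη]; linarith
            nlinarith
        _ = (X ^ (1 - η)) ^ δ := Real.rpow_mul hX0.le _ _
        _ ≤ (rad3 p : ℝ) ^ δ := Real.rpow_le_rpow (by positivity) h3.le hδ0.le
        _ < Real.log (rad3 p) ^ om (p.1 * p.2 * (p.1 + p.2)) := h7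
        _ ≤ Real.log X ^ om (p.1 * p.2 * (p.1 + p.2)) :=
            pow_le_pow_left₀ hlog0.le hlogX _
  have hfin : (((viol M1 X ∪ viol (1 / 3 + η) X) ∪ triples (X ^ (1 - η))) ∪
      many δ η X).Finite := by
    refine Set.Finite.union (Set.Finite.union (Set.Finite.union ?_ ?_) (triples_finite' _))
      (hv4 X hX).1
    · exact (triples_finite' X).subset fun p hp => hp.1
    · exact (triples_finite' X).subset fun p hp => hp.1
  have hcard : (exc M X).ncard ≤ (viol M1 X).ncard + (viol (1 / 3 + η) X).ncard +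
      (triples (X ^ (1 - η))).ncard + (many δ η X).ncard := by
    refine (Set.ncard_le_ncard hsub hfin).trans ?_
    refine (Set.ncard_union_le _ _).trans ?_
    have h1 := Set.ncard_union_le (viol M1 X ∪ viol (1 / 3 + η) X) (triples (X ^ (1 - η)))
    have h2 := Set.ncard_union_le (viol M1 X) (viol (1 / 3 + η) X)
    omega
  have hup : ∀ e : ℝ, e ≤ 2 / 3 - ν → X ^ e ≤ X ^ (2 / 3 - ν) := fun e he =>
    Real.rpow_le_rpow_of_exponent_le hX he
  have e1 : ((viol M1 X).ncard : ℝ) ≤ C1 * X ^ (2 / 3 - ν) :=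
    (hv1 X hX).trans (mul_le_mul_of_nonneg_left (hup _ (by linarith)) hC1.le)
  have e2 : ((viol (1 / 3 + η) X).ncard : ℝ) ≤ C2 * X ^ (2 / 3 - ν) :=
    (hv2 X hX).trans (mul_le_mul_of_nonneg_left (hup _ (by linarith)) hC2.le)
  have e3 : ((triples (X ^ (1 - η))).ncard : ℝ) ≤ C3 * X ^ (2 / 3 - ν) := by
    refine (hv3 _ hXη).trans ?_
    rw [← Real.rpow_mul hX0.le]
    exact mul_le_mul_of_nonneg_left (hup _ (by linarith)) hC3.le
  have e4 : ((many δ η X).ncard : ℝ) ≤ C4 * X ^ (2 / 3 - ν) :=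
    (hv4 X hX).2.trans (mul_le_mul_of_nonneg_left (hup _ (by rw [hη]; linarith)) hC4.le)
  calc ((exc M X).ncard : ℝ) ≤ (viol M1 X).ncard + (viol (1 / 3 + η) X).ncard +
      (triples (X ^ (1 - η))).ncard + (many δ η X).ncard := by exact_mod_cast hcard
    _ ≤ (C1 + C2 + C3 + C4) * X ^ (2 / 3 - ν) := by linarith

/-- every triple violates the inequality with an exponent at most `1/3` -/
theorem below {X : ℝ} {p : ℕ × ℕ} (hp : p ∈ triples X) {M : ℝ} (h0 : 0 ≤ M) (hM : M ≤ 1 / 3) :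
    HH p ^ M < ((p.1 + p.2 : ℕ) : ℝ) := by
  have hR2 : 2 ≤ rad3 p := rad3_two hp
  have hR2' : (2 : ℝ) ≤ rad3 p := by exact_mod_cast hR2
  have hlt : rad3 p < (p.1 + p.2) ^ 3 := rad3_lt hp
  have hlog0 : 0 < Real.log (rad3 p) := Real.log_pos (by linarith)
  have hpos : 0 < HH p := by unfold HH; positivity
  have hc2 : 2 ≤ p.1 + p.2 := by
    have := hp.1
    have := hp.2.1
    omega
  have hH : HH p < (((p.1 + p.2 : ℕ) : ℝ)) ^ 3 := by
    rcases Nat.lt_or_ge (rad3 p) 3 with h3 | h3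
    · have h4 : rad3 p = 2 := by omega
      have h5 : om (p.1 * p.2 * (p.1 + p.2)) ≤ 1 := by
        by_contra hcon
        rw [not_le] at hcon
        obtain ⟨q, hq, r, hr, hqr⟩ := Finset.one_lt_card.mp hcon
        have h6 : rad3 p = 2 := h4
        have hqd : q ∣ rad3 p := Finset.dvd_prod_of_mem _ hq
        have hrd : r ∣ rad3 p := Finset.dvd_prod_of_mem _ hr
        rw [h6] at hqd hrd
        have hq' := (Nat.prime_dvd_prime_iff_eq (Nat.prime_of_mem_primeFactors hq)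
          Nat.prime_two).mp hqd
        have hr' := (Nat.prime_dvd_prime_iff_eq (Nat.prime_of_mem_primeFactors hr)
          Nat.prime_two).mp hrd
        exact hqr (hq'.trans hr'.symm)
      have h6 : HH p ≤ 4 := by
        unfold HH
        rw [h4, div_le_iff₀ (by rw [h4] at hlog0; positivity)]
        have hl2 : (1 : ℝ) / 2 < Real.log 2 := by have := Real.log_two_gt_d9; linarith
        push_cast
        interval_cases hω : om (p.1 * p.2 * (p.1 + p.2))
        · norm_num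
        · rw [pow_one]; linarith
      have h7 : (2 : ℝ) ≤ ((p.1 + p.2 : ℕ) : ℝ) := by exact_mod_cast hc2
      have h8 : (2 : ℝ) ^ 3 ≤ (((p.1 + p.2 : ℕ) : ℝ)) ^ 3 := pow_le_pow_left₀ (by norm_num) h7 3
      linarith
    · have h4 : (1 : ℝ) ≤ Real.log (rad3 p) := by
        have h5 : (3 : ℝ) ≤ rad3 p := by exact_mod_cast h3
        rw [Real.le_log_iff_exp_le (by linarith)]
        have := Real.exp_one_lt_d9
        linarith
      have h5 : HH p ≤ rad3 p := by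
        unfold HH
        exact div_le_self (by positivity) (one_le_pow₀ h4)
      refine lt_of_le_of_lt h5 ?_
      exact_mod_cast hlt
  have hc1 : (1 : ℝ) < (((p.1 + p.2 : ℕ) : ℝ)) := by exact_mod_cast (by omega : 1 < p.1 + p.2)
  rcases eq_or_lt_of_le h0 with h | h
  · rw [← h, Real.rpow_zero]; exact hc1
  · calc HH p ^ M < ((((p.1 + p.2 : ℕ) : ℝ)) ^ 3) ^ M := Real.rpow_lt_rpow hpos.le hH h
      _ = (((p.1 + p.2 : ℕ) : ℝ)) ^ (3 * M) := by
          rw [← Real.rpow_natCast, ← Real.rpow_mul (Nat.cast_nonneg _)]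
          norm_num
      _ ≤ (((p.1 + p.2 : ℕ) : ℝ)) ^ (1 : ℝ) :=
          Real.rpow_le_rpow_of_exponent_le hc1.le (by linarith)
      _ = _ := Real.rpow_one _

end Pool.Agent.Q38.HC
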