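import Mathlib

set_option autoImplicit false

/-!
# Integers with many prime factors

`∑ n ≤ Y, z ^ ω(n) ≤ Y (1 + log Y) ^ z` for natural numbers `z`.
-/

namespace Pool.Agent.Q38.HC

open Finset

/-- the number of primes dividing `n` -/
def om (n : ℕ) : ℕ := n.primeFactors.card

theorem succ_pow_om (z n : ℕ) (hn : n ≠ 0) :
    (z + 1) ^ om n ≤ ∑ d ∈ n.divisors, z ^ om d := by
  have h1 : (z + 1) ^ om n = ∑ A ∈ n.primeFactors.powerset, z ^ A.card := by
    have := Finset.sum_pow_mul_eq_add_pow z 1 n.primeFactors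
    simp only [one_pow, mul_one] at this
    rw [this]
    rfl
  have hprod : ∀ A ∈ n.primeFactors.powerset, (∏ p ∈ A, p).primeFactors = A := by
    intro A hA
    rw [Finset.mem_powerset] at hA
    exact Nat.primeFactors_prod fun p hp => Nat.prime_of_mem_primeFactors (hA hp)
  rw [h1]
  have h2 : ∑ A ∈ n.primeFactors.powerset, z ^ A.card =
      ∑ d ∈ n.primeFactors.powerset.image (fun A => ∏ p ∈ A, p), z ^ om d := by
    rw [Finset.sum_image]
    · refine Finset.sum_congr rfl fun A hA => ?_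
      unfold om
      rw [hprod A hA]
    · intro A hA B hB hAB
      rw [← hprod A hA, ← hprod B hB]
      simp only at hAB
      rw [hAB]
  rw [h2]
  refine Finset.sum_le_sum_of_subset ?_
  intro d hd
  rw [Finset.mem_image] at hd
  obtain ⟨A, hA, rfl⟩ := hd
  rw [Finset.mem_powerset] at hA
  rw [Nat.mem_divisors]
  refine ⟨?_, hn⟩
  exact (Finset.prod_dvd_prod_of_subset _ _ _ hA).trans (Nat.prod_primeFactors_dvd n)

/-- `∑ n ≤ Y, z ^ ω(n) / n ≤ (∑ n ≤ Y, 1 / n) ^ z` -/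
theorem sum_div_le (Y z : ℕ) :
    ∑ n ∈ Icc 1 Y, (z : ℝ) ^ om n / n ≤ (∑ n ∈ Icc 1 Y, (1 : ℝ) / n) ^ z := by
  induction z with
  | zero =>
    rw [pow_zero]
    have h1 : ∀ n ∈ Icc 1 Y, ((0 : ℕ) : ℝ) ^ om n / n ≤ if n = 1 then 1 else 0 := by
      intro n hn
      rw [Finset.mem_Icc] at hn
      by_cases h : n = 1
      · subst h
        simp [om]
      · rw [if_neg h]
        have h2 : om n ≠ 0 := by
          unfold om
          rw [Finset.card_ne_zero, Nat.nonempty_primeFactors]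
          omega
        rw [Nat.cast_zero, zero_pow h2, zero_div]
    refine (Finset.sum_le_sum h1).trans ?_
    rw [Finset.sum_ite_eq']
    split_ifs <;> norm_num
  | succ z ih =>
    set H : ℝ := ∑ n ∈ Icc 1 Y, (1 : ℝ) / n with hH
    have hH0 : 0 ≤ H := Finset.sum_nonneg fun n _ => by positivity
    have h1 : ∀ n ∈ Icc 1 Y, ((z + 1 : ℕ) : ℝ) ^ om n / n ≤
        ∑ p ∈ (Icc 1 Y ×ˢ Icc 1 Y).filter (fun p => p.1 * p.2 = n),
          ((z : ℝ) ^ om p.1 / p.1) * (1 / p.2) := by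
      intro n hn
      rw [Finset.mem_Icc] at hn
      have hn0 : n ≠ 0 := by omega
      have hset : (Icc 1 Y ×ˢ Icc 1 Y).filter (fun p => p.1 * p.2 = n) =
          n.divisorsAntidiagonal := by
        ext ⟨d, m⟩
        simp only [Finset.mem_filter, Finset.mem_product, Finset.mem_Icc,
          Nat.mem_divisorsAntidiagonal]
        constructor
        · rintro ⟨-, h⟩
          exact ⟨h, hn0⟩
        · rintro ⟨h, -⟩
          have hd : 0 < d := Nat.pos_of_ne_zero (by rintro rfl; simp at h; omega)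
          have hm : 0 < m := Nat.pos_of_ne_zero (by rintro rfl; simp at h; omega)
          have h2 : d ≤ d * m := Nat.le_mul_of_pos_right _ hm
          have h3 : m ≤ d * m := Nat.le_mul_of_pos_left _ hd
          exact ⟨⟨⟨hd, by omega⟩, hm, by omega⟩, h⟩
      rw [hset]
      have h3 : ∑ p ∈ n.divisorsAntidiagonal, ((z : ℝ) ^ om p.1 / p.1) * (1 / p.2) =
          (∑ d ∈ n.divisors, (z : ℝ) ^ om d) / n := by
        rw [Nat.sum_divisorsAntidiagonal (fun d m => ((z : ℝ) ^ om d / d) * (1 / (m : ℝ))),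
          Finset.sum_div]
        refine Finset.sum_congr rfl fun d hd => ?_
        rw [Nat.mem_divisors] at hd
        obtain ⟨⟨m, rfl⟩, -⟩ := hd
        have hd0 : d ≠ 0 := by rintro rfl; simp at hn0
        have hm0 : m ≠ 0 := by rintro rfl; simp at hn0
        rw [Nat.mul_div_cancel_left m (by omega)]
        push_cast
        field_simp
      rw [h3]
      have h4 := succ_pow_om z n hn0
      have h5 : ((z + 1 : ℕ) : ℝ) ^ om n ≤ ∑ d ∈ n.divisors, (z : ℝ) ^ om d := by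
        exact_mod_cast h4
      gcongr
    calc ∑ n ∈ Icc 1 Y, ((z + 1 : ℕ) : ℝ) ^ om n / n
        ≤ ∑ n ∈ Icc 1 Y, ∑ p ∈ (Icc 1 Y ×ˢ Icc 1 Y).filter (fun p => p.1 * p.2 = n),
          ((z : ℝ) ^ om p.1 / p.1) * (1 / p.2) := Finset.sum_le_sum h1
      _ = ∑ n ∈ Icc 1 Y, ∑ p ∈ ((Icc 1 Y ×ˢ Icc 1 Y).filter (fun p => p.1 * p.2 ∈ Icc 1 Y)).filter
            (fun p => p.1 * p.2 = n), ((z : ℝ) ^ om p.1 / p.1) * (1 / p.2) := by
          refine Finset.sum_congr rfl fun n hn => ?_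
          refine Finset.sum_congr ?_ fun _ _ => rfl
          ext p
          simp only [Finset.mem_filter]
          constructor
          · rintro ⟨h, h'⟩
            exact ⟨⟨h, by rw [h']; exact hn⟩, h'⟩
          · rintro ⟨⟨h, -⟩, h'⟩
            exact ⟨h, h'⟩
      _ = ∑ p ∈ (Icc 1 Y ×ˢ Icc 1 Y).filter (fun p => p.1 * p.2 ∈ Icc 1 Y),
            ((z : ℝ) ^ om p.1 / p.1) * (1 / p.2) :=
          Finset.sum_fiberwise_of_maps_to (fun p hp => (Finset.mem_filter.mp hp).2) _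
      _ ≤ ∑ p ∈ Icc 1 Y ×ˢ Icc 1 Y, ((z : ℝ) ^ om p.1 / p.1) * (1 / p.2) :=
          Finset.sum_le_sum_of_subset_of_nonneg (Finset.filter_subset _ _)
            fun _ _ _ => by positivity
      _ = (∑ n ∈ Icc 1 Y, (z : ℝ) ^ om n / n) * H := by
          rw [Finset.sum_product, hH, Finset.sum_mul_sum]
      _ ≤ H ^ z * H := by gcongr
      _ = H ^ (z + 1) := by ring

theorem sum_le (Y z : ℕ) :
    ∑ n ∈ Icc 1 Y, (z : ℝ) ^ om n ≤ Y * (1 + Real.log Y) ^ z := by
  rcases Nat.eq_zero_or_pos Y with h0 | h0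
  · subst h0; simp
  have h1 : ∑ n ∈ Icc 1 Y, (z : ℝ) ^ om n ≤ Y * ∑ n ∈ Icc 1 Y, (z : ℝ) ^ om n / n := by
    rw [Finset.mul_sum]
    refine Finset.sum_le_sum fun n hn => ?_
    rw [Finset.mem_Icc] at hn
    have hn1 : (0 : ℝ) < n := by exact_mod_cast hn.1
    have hn2 : (n : ℝ) ≤ Y := by exact_mod_cast hn.2
    rw [mul_div_assoc', le_div_iff₀ hn1, mul_comm]
    gcongr
  refine h1.trans ?_
  have h2 : ∑ n ∈ Icc 1 Y, (1 : ℝ) / n ≤ 1 + Real.log Y := by
    have h3 := harmonic_le_one_add_log Y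
    have h4 : ((harmonic Y : ℚ) : ℝ) = ∑ n ∈ Icc 1 Y, (1 : ℝ) / n := by
      rw [harmonic_eq_sum_Icc]
      push_cast
      refine Finset.sum_congr rfl fun n _ => ?_
      rw [one_div]
    rw [← h4]
    exact h3
  have h5 : (0 : ℝ) ≤ ∑ n ∈ Icc 1 Y, (1 : ℝ) / n := Finset.sum_nonneg fun n _ => by positivity
  have h6 := (sum_div_le Y z).trans (pow_le_pow_left₀ h5 h2 z)
  gcongr

/-- the `n ≤ Y` with `z ^ ω(n) ≥ B` -/
theorem card_le (Y z : ℕ) (B : ℝ) (hB : 0 < B) :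
    (((Icc 1 Y).filter (fun n => B ≤ (z : ℝ) ^ om n)).card : ℝ) ≤
      Y * (1 + Real.log Y) ^ z / B := by
  rw [le_div_iff₀ hB]
  calc (((Icc 1 Y).filter (fun n => B ≤ (z : ℝ) ^ om n)).card : ℝ) * B =
        ∑ n ∈ (Icc 1 Y).filter (fun n => B ≤ (z : ℝ) ^ om n), B := by
        rw [Finset.sum_const, nsmul_eq_mul]
    _ ≤ ∑ n ∈ (Icc 1 Y).filter (fun n => B ≤ (z : ℝ) ^ om n), (z : ℝ) ^ om n :=
        Finset.sum_le_sum fun n hn => (Finset.mem_filter.mp hn).2
    _ ≤ ∑ n ∈ Icc 1 Y, (z : ℝ) ^ om n :=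
        Finset.sum_le_sum_of_subset_of_nonneg (Finset.filter_subset _ _)
          fun _ _ _ => by positivity
    _ ≤ _ := sum_le Y z

end Pool.Agent.Q38.HC
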